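import Pool.Agent.Lib_helper70.LS.Count

/-!
# The local system: atoms, random paths through the atoms
-/

set_option autoImplicit false

namespace Pool.Agent.Lib_helper70.LS

open Finset

variable {t : ℕ}

/-- A partial matching between consecutive levels in `[a, b]`. -/
structure Grad (N : Finset (Fin t) → Finset (Fin t) → Prop) (a b : ℕ) : Prop where
  step : ∀ S S', N S S' → ∃ x, x ∉ S ∧ S' = insert x S
  uniq : ∀ S S1 S2, a ≤ S.card → S.card < b → N S S1 → N S S2 → S1 = S2
  uniq' : ∀ S' S1 S2, a < S'.card → S'.card ≤ b → N S1 S' → N S2 S' → S1 = S2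

section

variable (N : Finset (Fin t) → Finset (Fin t) → Prop) (a b : ℕ)

open Classical in
/-- One step up. -/
noncomputable def st (X : Finset (Fin t)) : Finset (Fin t) :=
  if h : ∃ X1, N X X1 then h.choose else X

open Classical in
/-- One step down. -/
noncomputable def dn (X : Finset (Fin t)) : Finset (Fin t) :=
  if h : ∃ X0, N X0 X then h.choose else X

/-- The bottom of the atom. -/
noncomputable def bot (S : Finset (Fin t)) : Finset (Fin t) := (dn N)^[S.card - a] S

/-- Bottoms of atoms. -/
def Bt (B : Finset (Fin t)) : Prop := a ≤ B.card ∧ B.card ≤ b ∧ (B.card = a ∨ ¬ ∃ X0, N X0 B)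

/-- The element of the atom at level `l`, or the top of the atom. -/
noncomputable def up (B : Finset (Fin t)) (l : ℕ) : Finset (Fin t) := (st N)^[l - B.card] B

/-- The path through the atom, completed in the order `π`. -/
noncomputable def path (B : Finset (Fin t)) (π : Equiv.Perm (Fin t)) (l : ℕ) : Finset (Fin t) :=
  if l < B.card then B \ firstk π (B.card - l) B
  else up N B l ∪ firstk π (l - (up N B l).card) (up N B l)ᶜ

variable {N a b}

theorem st_spec {X : Finset (Fin t)} (h : ∃ X1, N X X1) : N X (st N X) := by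
  unfold st
  rw [dif_pos h]
  exact h.choose_spec

theorem st_none {X : Finset (Fin t)} (h : ¬ ∃ X1, N X X1) : st N X = X := by
  unfold st
  rw [dif_neg h]

theorem dn_spec {X : Finset (Fin t)} (h : ∃ X0, N X0 X) : N (dn N X) X := by
  unfold dn
  rw [dif_pos h]
  exact h.choose_spec

theorem dn_none {X : Finset (Fin t)} (h : ¬ ∃ X0, N X0 X) : dn N X = X := by
  unfold dn
  rw [dif_neg h]

theorem Grad.card (G : Grad N a b) {S S' : Finset (Fin t)} (h : N S S') :
    S'.card = S.card + 1 ∧ S ⊆ S' := by
  obtain ⟨x, hx, rfl⟩ := G.step S S' h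
  exact ⟨card_insert_of_notMem hx, subset_insert _ _⟩

theorem Grad.dn_st (G : Grad N a b) {X : Finset (Fin t)} (h1 : a ≤ X.card) (h2 : X.card < b)
    (h : ∃ X1, N X X1) : dn N (st N X) = X := by
  have h3 := st_spec h
  have h4 := G.card h3
  have h5 : N (dn N (st N X)) (st N X) := dn_spec ⟨X, h3⟩
  exact G.uniq' _ _ _ (by omega) (by omega) h5 h3

theorem Grad.st_dn (G : Grad N a b) {X : Finset (Fin t)} (h1 : a < X.card) (h2 : X.card ≤ b)
    (h : ∃ X0, N X0 X) : st N (dn N X) = X := by
  have h3 := dn_spec h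
  have h4 := G.card h3
  have h5 : N (dn N X) (st N (dn N X)) := st_spec ⟨X, h3⟩
  exact G.uniq _ _ _ (by omega) (by omega) h5 h3

theorem iterate_dn_none {X : Finset (Fin t)} (h : ¬ ∃ X0, N X0 X) (n : ℕ) : (dn N)^[n] X = X := by
  apply Function.iterate_fixed
  exact dn_none h

theorem Grad.bot_spec (G : Grad N a b) : ∀ (n : ℕ) (S : Finset (Fin t)), S.card = a + n →
    S.card ≤ b → Bt N a b (bot N a S) ∧ (bot N a S).card ≤ S.card ∧
      (st N)^[S.card - (bot N a S).card] (bot N a S) = S := by
  intro n
  induction n with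
  | zero =>
    intro S h1 h2
    have e : bot N a S = S := by
      unfold bot
      rw [h1]
      simp
    rw [e]
    refine ⟨⟨by omega, h2, Or.inl (by omega)⟩, le_rfl, ?_⟩
    simp
  | succ n ih =>
    intro S h1 h2
    by_cases h : ∃ X0, N X0 S
    · have h3 := G.card (dn_spec h)
      have e : bot N a S = bot N a (dn N S) := by
        unfold bot
        have e1 : S.card - a = (dn N S).card - a + 1 := by omega
        rw [e1, Function.iterate_succ_apply]
      obtain ⟨i1, i2, i3⟩ := ih (dn N S) (by omega) (by omega)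
      rw [e]
      refine ⟨i1, by omega, ?_⟩
      have e2 : S.card - (bot N a (dn N S)).card = (dn N S).card - (bot N a (dn N S)).card + 1 := by
        omega
      rw [e2, Function.iterate_succ_apply', i3]
      exact G.st_dn (by omega) h2 h
    · have e : bot N a S = S := iterate_dn_none h _
      rw [e]
      refine ⟨⟨by omega, h2, Or.inr h⟩, le_rfl, ?_⟩
      simp

theorem bot_Bt {B : Finset (Fin t)} (hB : Bt N a b B) : bot N a B = B := by
  rcases hB.2.2 with h | h
  · unfold bot
    rw [h]
    simp
  · exact iterate_dn_none h _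

theorem Grad.iterate_card (G : Grad N a b) (B : Finset (Fin t)) (n : ℕ) :
    B.card ≤ ((st N)^[n] B).card ∧ ((st N)^[n] B).card ≤ B.card + n ∧ B ⊆ (st N)^[n] B ∧
      (((st N)^[n] B).card = B.card + n ∨ ¬ ∃ X1, N ((st N)^[n] B) X1) := by
  induction n with
  | zero => simp
  | succ n ih =>
    obtain ⟨h1, h2, h3, h4⟩ := ih
    rw [Function.iterate_succ_apply']
    by_cases h : ∃ X1, N ((st N)^[n] B) X1
    · have h5 := G.card (st_spec h)
      have h6 : ((st N)^[n] B).card = B.card + n := by
        rcases h4 with h4 | h4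
        · exact h4
        · exact absurd h h4
      exact ⟨by omega, by omega, h3.trans h5.2, Or.inl (by omega)⟩
    · rw [st_none h]
      exact ⟨h1, by omega, h3, Or.inr h⟩

theorem Grad.bot_st (G : Grad N a b) {B : Finset (Fin t)} (hB : Bt N a b B) :
    ∀ n, B.card + n ≤ b → bot N a ((st N)^[n] B) = B := by
  intro n
  induction n with
  | zero =>
    intro _
    exact bot_Bt hB
  | succ n ih =>
    intro hn
    have h0 := ih (by omega)
    obtain ⟨h1, h2, h3, h4⟩ := G.iterate_card B n
    rw [Function.iterate_succ_apply']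
    have h5 := hB.1
    by_cases h : ∃ X1, N ((st N)^[n] B) X1
    · have h6 := G.card (st_spec h)
      have h7 := G.dn_st (by omega) (by omega) h
      have key : bot N a (st N ((st N)^[n] B)) = bot N a ((st N)^[n] B) := by
        unfold bot
        have e : (st N ((st N)^[n] B)).card - a = ((st N)^[n] B).card - a + 1 := by omega
        rw [e, Function.iterate_succ_apply, h7]
      rw [key]
      exact h0
    · rw [st_none h]
      exact h0

theorem Grad.up_card (G : Grad N a b) {B : Finset (Fin t)} {l : ℕ} (hl : B.card ≤ l) :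
    B.card ≤ (up N B l).card ∧ (up N B l).card ≤ l ∧ B ⊆ up N B l ∧
      ((up N B l).card = l ∨ ¬ ∃ X1, N (up N B l) X1) := by
  obtain ⟨h1, h2, h3, h4⟩ := G.iterate_card B (l - B.card)
  unfold up
  refine ⟨h1, by omega, h3, ?_⟩
  rcases h4 with h4 | h4
  · left
    omega
  · exact Or.inr h4

theorem Grad.path_card (G : Grad N a b) (hbt : b ≤ t) (B : Finset (Fin t))
    (π : Equiv.Perm (Fin t)) {l : ℕ} (hl : l ≤ b) : (path N B π l).card = l := by
  unfold path
  split_ifs with h
  · rw [card_sdiff_of_subset (firstk_subset _ _ _), firstk_card π (by omega)]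
    omega
  · obtain ⟨h1, h2, h3, h4⟩ := G.up_card (N := N) (B := B) (l := l) (by omega)
    have h5 : ((up N B l)ᶜ).card = t - (up N B l).card := by
      rw [card_compl, Fintype.card_fin]
    rw [card_union_of_disjoint, firstk_card π (by omega)]
    · omega
    · apply Disjoint.mono_right (firstk_subset _ _ _)
      exact disjoint_compl_right

theorem Grad.path_mono (G : Grad N a b) (B : Finset (Fin t)) (π : Equiv.Perm (Fin t)) (l : ℕ) :
    path N B π l ⊆ path N B π (l + 1) := by
  unfold path
  by_cases h : l + 1 < B.card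
  · rw [if_pos (by omega), if_pos h]
    apply sdiff_subset_sdiff subset_rfl
    apply firstk_mono
    omega
  · rw [if_neg h]
    by_cases h' : l < B.card
    · rw [if_pos h']
      refine (sdiff_subset).trans ?_
      have e : l + 1 - B.card = 0 := by omega
      unfold up
      rw [e]
      exact subset_union_left
    · rw [if_neg h']
      have e : up N B (l + 1) = st N (up N B l) := by
        unfold up
        have e1 : l + 1 - B.card = l - B.card + 1 := by omega
        rw [e1, Function.iterate_succ_apply']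
      obtain ⟨h1, h2, h3, h4⟩ := G.up_card (N := N) (B := B) (l := l) (by omega)
      by_cases h5 : ∃ X1, N (up N B l) X1
      · have h6 : (up N B l).card = l := by
          rcases h4 with h4 | h4
          · exact h4
          · exact absurd h5 h4
        rw [h6, Nat.sub_self, firstk_zero, union_empty, e]
        exact (G.card (st_spec h5)).2.trans subset_union_left
      · rw [e, st_none h5]
        apply union_subset_union subset_rfl
        apply firstk_mono
        omega

theorem Grad.path_bot (G : Grad N a b) {S : Finset (Fin t)} (h1 : a ≤ S.card) (h2 : S.card ≤ b)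
    (π : Equiv.Perm (Fin t)) : path N (bot N a S) π S.card = S := by
  obtain ⟨h3, h4, h5⟩ := G.bot_spec (S.card - a) S (by omega) h2
  unfold path
  rw [if_neg (by omega)]
  unfold up
  rw [h5, Nat.sub_self, firstk_zero, union_empty]

theorem path_low {B : Finset (Fin t)} (hB : a ≤ B.card) (π : Equiv.Perm (Fin t)) :
    path N B π a = B \ firstk π (B.card - a) B := by
  unfold path
  split_ifs with h
  · rfl
  · have e : B.card = a := by omega
    unfold up
    rw [e, Nat.sub_self]
    simp [firstk_zero, e]

open Classical in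
theorem count_low {B S : Finset (Fin t)} (hB : a ≤ B.card) (hS : S.card = a) :
    ((univ.filter (fun π : Equiv.Perm (Fin t) => path N B π a = S)).card : ℝ) =
      if S ⊆ B then t.factorial * (1 / (B.card.choose a : ℝ)) else 0 := by
  split_ifs with h
  · have e : (univ.filter (fun π : Equiv.Perm (Fin t) => path N B π a = S)).card =
        cnt (B.card - a) B (B \ S) := by
      unfold cnt
      congr 1
      ext π
      simp only [mem_filter, mem_univ, true_and]
      rw [path_low hB π]
      constructor
      · intro h1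
        rw [← h1, Finset.sdiff_sdiff_eq_self (firstk_subset _ _ _)]
      · intro h1
        rw [h1, Finset.sdiff_sdiff_eq_self h]
    rw [e, cnt_real sdiff_subset (by rw [card_sdiff_of_subset h, hS]), Nat.choose_symm hB]
  · rw [Nat.cast_eq_zero, card_eq_zero, filter_eq_empty_iff]
    intro π _ h1
    apply h
    rw [← h1, path_low hB π]
    exact sdiff_subset

open Classical in
theorem Grad.count_high (G : Grad N a b) (hbt : b ≤ t) {B S : Finset (Fin t)} (hB : B.card ≤ b)
    (hS : S.card = b) :
    ((univ.filter (fun π : Equiv.Perm (Fin t) => path N B π b = S)).card : ℝ) =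
      if up N B b ⊆ S then t.factorial * (1 / ((t - (up N B b).card).choose (t - b) : ℝ))
        else 0 := by
  obtain ⟨h1, h2, h3, h4⟩ := G.up_card (N := N) (B := B) (l := b) hB
  have hp : ∀ π : Equiv.Perm (Fin t), path N B π b =
      up N B b ∪ firstk π (b - (up N B b).card) (up N B b)ᶜ := by
    intro π
    unfold path
    rw [if_neg (by omega)]
  have h5 : ((up N B b)ᶜ).card = t - (up N B b).card := by
    rw [card_compl, Fintype.card_fin]
  split_ifs with h
  · have e : (univ.filter (fun π : Equiv.Perm (Fin t) => path N B π b = S)).card =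
        cnt (b - (up N B b).card) (up N B b)ᶜ (S \ up N B b) := by
      unfold cnt
      congr 1
      ext π
      simp only [mem_filter, mem_univ, true_and]
      rw [hp π]
      have hd : Disjoint (up N B b) (firstk π (b - (up N B b).card) (up N B b)ᶜ) :=
        Disjoint.mono_right (firstk_subset _ _ _) disjoint_compl_right
      constructor
      · intro h6
        rw [← h6, union_sdiff_cancel_left hd]
      · intro h6
        rw [h6, union_sdiff_of_subset h]
    have hsub : S \ up N B b ⊆ (up N B b)ᶜ := by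
      intro x hx
      rw [mem_sdiff] at hx
      rw [mem_compl]
      exact hx.2
    rw [e, cnt_real hsub (by rw [card_sdiff_of_subset h, hS]), h5,
      Nat.choose_symm_of_eq_add (show t - (up N B b).card = (b - (up N B b).card) + (t - b) by
      omega)]
  · rw [Nat.cast_eq_zero, card_eq_zero, filter_eq_empty_iff]
    intro π _ h6
    apply h
    rw [← h6, hp π]
    exact subset_union_left

end

/-! ## The modular matching -/

theorem nx_grad (a b μ : ℕ) (h1 : t - a ≤ μ) (h2 : b ≤ μ) : Grad (Nx (t := t) μ) a b where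
  step := by
    rintro S S' ⟨x, hx, h, -⟩
    exact ⟨x, hx, h⟩
  uniq := by
    intro S S1 S2 ha _ n1 n2
    refine Nx.unique ?_ n1 n2
    rw [card_compl, Fintype.card_fin]
    omega
  uniq' := by
    intro S' S1 S2 _ hb n1 n2
    exact Nx.unique' (by omega) n1 n2

open Classical in
/-- The local system. -/
theorem local_system (t a L m Δ : ℕ) (hm : 0 < m) (hma : m ≤ a) (hmb : m + (a + L) ≤ t)
    (h1 : t ≤ 2 * a + Δ) (h2 : 2 * a + 2 * L ≤ t + Δ) (h3 : L ≤ Δ) :
    ∃ (ι : Type) (_ : Fintype ι) (atm : Finset (Fin t) → ι)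
      (pth : ι → Equiv.Perm (Fin t) → ℕ → Finset (Fin t)),
      (∀ i π l, l ≤ a + L → (pth i π l).card = l) ∧
      (∀ i π l, pth i π l ⊆ pth i π (l + 1)) ∧
      (∀ S π, a ≤ S.card → S.card ≤ a + L → pth (atm S) π S.card = S) ∧
      ((Fintype.card ι : ℝ) ≤ (1 + L * (2 * Δ / m * (1 + Δ / m) ^ L)) * t.choose a) ∧
      (∀ S : Finset (Fin t), S.card = a →
        ((univ.filter (fun w : ι × Equiv.Perm (Fin t) => pth w.1 w.2 a = S)).card : ℝ) ≤
          (1 + L * (2 * Δ / m * (1 + Δ / m) ^ L)) * t.factorial) ∧
      (∀ S : Finset (Fin t), S.card = a + L →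
        ((univ.filter (fun w : ι × Equiv.Perm (Fin t) => pth w.1 w.2 (a + L) = S)).card : ℝ) ≤
          (1 + L * (2 * Δ / m * (1 + Δ / m) ^ L)) * t.factorial) := by
  set μ := max (t - a) (a + L) with hμ
  have hμ0 : 0 < μ := by
    rw [hμ]
    omega
  have hμt : t ≤ 2 * μ := by
    rw [hμ]
    omega
  have G : Grad (Nx (t := t) μ) a (a + L) := nx_grad a (a + L) μ (by omega) (by omega)
  have hbt : a + L ≤ t := by omega
  set d : ℝ := L * (2 * Δ / m * (1 + Δ / m) ^ L) with hd
  have hm' : (0 : ℝ) < m := by exact_mod_cast hm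
  have hΔ0 : (0 : ℝ) ≤ (Δ : ℝ) := by positivity
  have hρ1 : (1 : ℝ) ≤ 1 + (Δ : ℝ) / m := by
    have : (0 : ℝ) ≤ (Δ : ℝ) / m := by positivity
    linarith
  have hρ : ∀ (t' a' : ℕ), m ≤ a' → t' ≤ 2 * a' + Δ → (t' : ℝ) - a' ≤ (1 + (Δ : ℝ) / m) * a' := by
    intro t' a' h4 h5
    have h4' : (m : ℝ) ≤ a' := by exact_mod_cast h4
    have h5' : (t' : ℝ) ≤ 2 * a' + Δ := by exact_mod_cast h5
    have h6 : (Δ : ℝ) ≤ Δ / m * a' := by
      rw [div_mul_eq_mul_div, le_div_iff₀ hm']
      exact mul_le_mul_of_nonneg_left h4' hΔ0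
    linarith
  have hdiv : ∀ a' : ℕ, m ≤ a' → (L : ℝ) * (((2 * Δ : ℕ) : ℝ) / a' * (1 + (Δ : ℝ) / m) ^ L) ≤ d := by
    intro a' h4
    have h4' : (m : ℝ) ≤ a' := by exact_mod_cast h4
    rw [hd]
    apply mul_le_mul_of_nonneg_left _ (by positivity)
    apply mul_le_mul_of_nonneg_right _ (by positivity)
    push_cast
    exact div_le_div_of_nonneg_left (by positivity) hm' h4'
  -- bottom density
  have hlow : ∀ S : Finset (Fin t), S.card = a →
      ∑ B ∈ univ.filter (fun B : Finset (Fin t) => Bt (Nx μ) a (a + L) B),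
        (if S ⊆ B then (1 / (B.card.choose a : ℝ)) else 0) ≤ 1 + d := by
    intro S hS
    have hsub : univ.filter (fun B : Finset (Fin t) => Bt (Nx μ) a (a + L) B ∧ S ⊆ B) ⊆
        insert S (univ.filter (fun B : Finset (Fin t) => S ⊆ B ∧ a < B.card ∧ B.card ≤ a + L ∧
          ¬ ∃ X0, Nx μ X0 B)) := by
      intro B hB
      rw [mem_filter] at hB
      obtain ⟨-, ⟨b1, b2, b3⟩, b4⟩ := hB
      rw [mem_insert, mem_filter]
      rcases Nat.eq_or_lt_of_le b1 with h | h
      · left
        exact (eq_of_subset_of_card_le b4 (by omega)).symm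
      · right
        refine ⟨mem_univ _, b4, h, b2, ?_⟩
        rcases b3 with b3 | b3
        · omega
        · exact b3
    rw [← sum_filter, filter_filter]
    refine (sum_le_sum_of_subset_of_nonneg hsub (fun _ _ _ => by positivity)).trans ?_
    rw [sum_insert (by
      rw [mem_filter]
      rintro ⟨-, -, h, -⟩
      omega)]
    have e : (1 / (S.card.choose a : ℝ)) = 1 := by rw [hS]; simp
    rw [e]
    have h4 := density_bound (fun B : Finset (Fin t) => ¬ ∃ X0, Nx μ X0 B) S a L (2 * Δ)
      (by omega) hbt hS (by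
        intro S'' _ c1 c2
        have c5 := count_bad μ hμ0 hμt S'' (by omega)
        refine le_trans (le_of_eq ?_) (c5.trans (by omega))
        congr) (1 + (Δ : ℝ) / m) hρ1 (hρ t a hma h1)
    have h5 := hdiv a hma
    have h6 : ∑ B ∈ univ.filter (fun B : Finset (Fin t) => S ⊆ B ∧ a < B.card ∧
        B.card ≤ a + L ∧ ¬ ∃ X0, Nx μ X0 B), (1 / (B.card.choose a : ℝ)) ≤
        (L : ℝ) * (((2 * Δ : ℕ) : ℝ) / a * (1 + (Δ : ℝ) / m) ^ L) := by
      convert h4
    linarith
  -- top density
  have hhigh : ∀ S : Finset (Fin t), S.card = a + L →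
      ∑ X ∈ univ.filter (fun X : Finset (Fin t) => a ≤ X.card ∧ X.card ≤ a + L ∧
        (X.card = a + L ∨ ¬ ∃ X1, Nx μ X X1)),
        (if X ⊆ S then (1 / ((t - X.card).choose (t - (a + L)) : ℝ)) else 0) ≤ 1 + d := by
    intro S hS
    have hsub : univ.filter (fun X : Finset (Fin t) => (a ≤ X.card ∧ X.card ≤ a + L ∧
        (X.card = a + L ∨ ¬ ∃ X1, Nx μ X X1)) ∧ X ⊆ S) ⊆
        insert S (univ.filter (fun X : Finset (Fin t) => X ⊆ S ∧ a ≤ X.card ∧ X.card < a + L ∧
          ¬ ∃ X1, Nx μ X X1)) := by
      intro B hB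
      rw [mem_filter] at hB
      obtain ⟨-, ⟨b1, b2, b3⟩, b4⟩ := hB
      rw [mem_insert, mem_filter]
      rcases Nat.eq_or_lt_of_le b2 with h | h
      · left
        exact (eq_of_subset_of_card_le b4 (by omega))
      · right
        refine ⟨mem_univ _, b4, b1, h, ?_⟩
        rcases b3 with b3 | b3
        · omega
        · exact b3
    rw [← sum_filter, filter_filter]
    refine (sum_le_sum_of_subset_of_nonneg hsub (fun _ _ _ => by positivity)).trans ?_
    rw [sum_insert (by
      rw [mem_filter]
      rintro ⟨-, -, -, h, -⟩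
      omega)]
    have e : (1 / ((t - S.card).choose (t - (a + L)) : ℝ)) = 1 := by rw [hS]; simp
    rw [e]
    have h4 := density_bound (fun B : Finset (Fin t) => ¬ ∃ X1, Nx μ Bᶜ X1) Sᶜ (t - (a + L)) L
      (2 * Δ) (by omega) (by omega) (by rw [card_compl, Fintype.card_fin, hS]) (by
        intro S'' _ c1 c2
        have c3 : (S''ᶜ).card = t - S''.card := by rw [card_compl, Fintype.card_fin]
        have c4 : S''.card ≤ t := by
          have := card_le_univ S''
          rwa [Fintype.card_fin] at this
        have c5 := count_bad' μ hμ0 hμt S''ᶜ (by omega) (by omega)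
        refine le_trans (card_le_card ?_) (c5.trans (by omega))
        intro x hx
        simp only [mem_filter] at hx ⊢
        rw [← compl_insert]
        exact hx) (1 + (Δ : ℝ) / m) hρ1 (hρ t (t - (a + L)) (by omega) (by omega))
    have h5 := hdiv (t - (a + L)) (by omega)
    have h6 : ∑ X ∈ univ.filter (fun X : Finset (Fin t) => X ⊆ S ∧ a ≤ X.card ∧ X.card < a + L ∧
          ¬ ∃ X1, Nx μ X X1), (1 / ((t - X.card).choose (t - (a + L)) : ℝ)) =
        ∑ B ∈ univ.filter (fun B : Finset (Fin t) => Sᶜ ⊆ B ∧ t - (a + L) < B.card ∧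
          B.card ≤ t - (a + L) + L ∧ ¬ ∃ X1, Nx μ Bᶜ X1),
          (1 / (B.card.choose (t - (a + L)) : ℝ)) := by
      refine sum_bij' (fun X _ => Xᶜ) (fun B _ => Bᶜ) ?_ ?_ ?_ ?_ ?_
      · intro X hX
        rw [mem_filter] at hX ⊢
        obtain ⟨-, x1, x2, x3, x4⟩ := hX
        refine ⟨mem_univ _, compl_subset_compl.2 x1, ?_, ?_, ?_⟩
        · rw [card_compl, Fintype.card_fin]
          omega
        · rw [card_compl, Fintype.card_fin]
          omega
        · rwa [compl_compl]
      · intro B hB
        rw [mem_filter] at hB ⊢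
        obtain ⟨-, x1, x2, x3, x4⟩ := hB
        have c4 : B.card ≤ t := by
          have := card_le_univ B
          rwa [Fintype.card_fin] at this
        refine ⟨mem_univ _, ?_, ?_, ?_, x4⟩
        · rw [← compl_compl S]
          exact compl_subset_compl.2 x1
        · rw [card_compl, Fintype.card_fin]
          omega
        · rw [card_compl, Fintype.card_fin]
          omega
      · intro X _
        exact compl_compl X
      · intro X _
        exact compl_compl X
      · intro X hX
        rw [card_compl, Fintype.card_fin]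
    have h7 : ∑ B ∈ univ.filter (fun B : Finset (Fin t) => Sᶜ ⊆ B ∧ t - (a + L) < B.card ∧
          B.card ≤ t - (a + L) + L ∧ ¬ ∃ X1, Nx μ Bᶜ X1),
          (1 / (B.card.choose (t - (a + L)) : ℝ)) ≤ (L : ℝ) * (((2 * Δ : ℕ) : ℝ) /
            ((t - (a + L) : ℕ) : ℝ) * (1 + (Δ : ℝ) / m) ^ L) := by
      convert h4
    rw [h6]
    linarith
  -- the index type
  have hLow : ∀ S : Finset (Fin t), S.card = a →
      ((univ.filter (fun w : {B : Finset (Fin t) // Bt (Nx μ) a (a + L) B} × Equiv.Perm (Fin t) =>
        path (Nx μ) w.1.1 w.2 a = S)).card : ℝ) ≤ (1 + d) * t.factorial := by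
    intro S hS
    have e1 : ((univ.filter (fun w : {B : Finset (Fin t) // Bt (Nx μ) a (a + L) B} ×
        Equiv.Perm (Fin t) => path (Nx μ) w.1.1 w.2 a = S)).card : ℝ) =
        ∑ B : {B : Finset (Fin t) // Bt (Nx μ) a (a + L) B},
          ((univ.filter (fun π : Equiv.Perm (Fin t) => path (Nx μ) B.1 π a = S)).card : ℝ) := by
      rw [card_filter, Fintype.sum_prod_type]
      push_cast
      apply sum_congr rfl
      intro B _
      rw [card_filter]
      push_cast
      rfl
    rw [e1]
    have e2 : ∀ B : {B : Finset (Fin t) // Bt (Nx μ) a (a + L) B},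
        ((univ.filter (fun π : Equiv.Perm (Fin t) => path (Nx μ) B.1 π a = S)).card : ℝ) =
          t.factorial * (if S ⊆ B.1 then (1 / (B.1.card.choose a : ℝ)) else 0) := by
      intro B
      rw [count_low B.2.1 hS]
      split_ifs <;> simp
    rw [sum_congr rfl (fun B _ => e2 B), ← mul_sum]
    have e3 : ∑ B : {B : Finset (Fin t) // Bt (Nx μ) a (a + L) B},
        (if S ⊆ B.1 then (1 / (B.1.card.choose a : ℝ)) else 0) =
        ∑ B ∈ univ.filter (fun B : Finset (Fin t) => Bt (Nx μ) a (a + L) B),
          (if S ⊆ B then (1 / (B.card.choose a : ℝ)) else 0) := by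
      rw [← sum_subtype_eq_sum_filter]
      apply sum_bij' (fun B _ => B) (fun B _ => B) <;> simp
    rw [e3, mul_comm]
    exact mul_le_mul_of_nonneg_right (hlow S hS) (by positivity)
  have hHigh : ∀ S : Finset (Fin t), S.card = a + L →
      ((univ.filter (fun w : {B : Finset (Fin t) // Bt (Nx μ) a (a + L) B} × Equiv.Perm (Fin t) =>
        path (Nx μ) w.1.1 w.2 (a + L) = S)).card : ℝ) ≤ (1 + d) * t.factorial := by
    intro S hS
    have e1 : ((univ.filter (fun w : {B : Finset (Fin t) // Bt (Nx μ) a (a + L) B} ×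
        Equiv.Perm (Fin t) => path (Nx μ) w.1.1 w.2 (a + L) = S)).card : ℝ) =
        ∑ B : {B : Finset (Fin t) // Bt (Nx μ) a (a + L) B},
          ((univ.filter (fun π : Equiv.Perm (Fin t) =>
            path (Nx μ) B.1 π (a + L) = S)).card : ℝ) := by
      rw [card_filter, Fintype.sum_prod_type]
      push_cast
      apply sum_congr rfl
      intro B _
      rw [card_filter]
      push_cast
      rfl
    rw [e1]
    have e2 : ∀ B : {B : Finset (Fin t) // Bt (Nx μ) a (a + L) B},
        ((univ.filter (fun π : Equiv.Perm (Fin t) => path (Nx μ) B.1 π (a + L) = S)).card : ℝ) =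
          t.factorial * (if up (Nx μ) B.1 (a + L) ⊆ S then
            (1 / ((t - (up (Nx μ) B.1 (a + L)).card).choose (t - (a + L)) : ℝ)) else 0) := by
      intro B
      rw [G.count_high hbt B.2.2.1 hS]
      split_ifs <;> simp
    rw [sum_congr rfl (fun B _ => e2 B), ← mul_sum]
    have hinj : Function.Injective (fun B : {B : Finset (Fin t) // Bt (Nx μ) a (a + L) B} =>
        up (Nx μ) B.1 (a + L)) := by
      intro B B' hBB
      simp only at hBB
      apply Subtype.ext
      have q1 := G.bot_st B.2 (a + L - B.1.card) (by have := B.2.2.1; omega)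
      have q2 := G.bot_st B'.2 (a + L - B'.1.card) (by have := B'.2.2.1; omega)
      rw [← q1, ← q2]
      unfold up at hBB
      rw [hBB]
    have e3 : ∑ B : {B : Finset (Fin t) // Bt (Nx μ) a (a + L) B},
        (if up (Nx μ) B.1 (a + L) ⊆ S then
            (1 / ((t - (up (Nx μ) B.1 (a + L)).card).choose (t - (a + L)) : ℝ)) else 0) =
        ∑ X ∈ univ.image (fun B : {B : Finset (Fin t) // Bt (Nx μ) a (a + L) B} =>
          up (Nx μ) B.1 (a + L)),
          (if X ⊆ S then (1 / ((t - X.card).choose (t - (a + L)) : ℝ)) else 0) := by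
      rw [sum_image (fun x _ y _ h => hinj h)]
    rw [e3, mul_comm]
    apply mul_le_mul_of_nonneg_right _ (by positivity)
    refine le_trans (sum_le_sum_of_subset_of_nonneg ?_ ?_) (hhigh S hS)
    · intro X hX
      rw [mem_image] at hX
      obtain ⟨B, -, rfl⟩ := hX
      obtain ⟨u1, u2, u3, u4⟩ := G.up_card (N := Nx μ) (B := B.1) (l := a + L) B.2.2.1
      rw [mem_filter]
      exact ⟨mem_univ _, le_trans B.2.1 u1, u2, u4⟩
    · intro X _ _
      split_ifs <;> positivity
  -- the cardinality
  have hcard : (Fintype.card {B : Finset (Fin t) // Bt (Nx μ) a (a + L) B} : ℝ) ≤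
      (1 + d) * t.choose a := by
    have e1 : ∑ S ∈ (univ : Finset (Fin t)).powersetCard a,
        ((univ.filter (fun w : {B : Finset (Fin t) // Bt (Nx μ) a (a + L) B} ×
          Equiv.Perm (Fin t) => path (Nx μ) w.1.1 w.2 a = S)).card : ℝ) =
        (Fintype.card {B : Finset (Fin t) // Bt (Nx μ) a (a + L) B} : ℝ) * t.factorial := by
      have e2 : (Fintype.card {B : Finset (Fin t) // Bt (Nx μ) a (a + L) B} : ℝ) *
          t.factorial = ((univ : Finset ({B : Finset (Fin t) // Bt (Nx μ) a (a + L) B} ×
            Equiv.Perm (Fin t))).card : ℝ) := by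
        rw [card_univ, Fintype.card_prod, Fintype.card_perm, Fintype.card_fin]
        push_cast
        rfl
      rw [e2, card_eq_sum_card_fiberwise (f := fun w : {B : Finset (Fin t) //
        Bt (Nx μ) a (a + L) B} × Equiv.Perm (Fin t) => path (Nx μ) w.1.1 w.2 a)
        (t := (univ : Finset (Fin t)).powersetCard a)]
      · push_cast
        rfl
      · intro w _
        rw [mem_coe, mem_powersetCard]
        exact ⟨subset_univ _, G.path_card hbt _ _ (by omega)⟩
    have e3 : ∑ S ∈ (univ : Finset (Fin t)).powersetCard a,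
        ((univ.filter (fun w : {B : Finset (Fin t) // Bt (Nx μ) a (a + L) B} ×
          Equiv.Perm (Fin t) => path (Nx μ) w.1.1 w.2 a = S)).card : ℝ) ≤
        ∑ S ∈ (univ : Finset (Fin t)).powersetCard a, (1 + d) * (t.factorial : ℝ) := by
      apply sum_le_sum
      intro S hS
      rw [mem_powersetCard] at hS
      exact hLow S hS.2
    rw [e1, sum_const, card_powersetCard, card_univ, Fintype.card_fin, nsmul_eq_mul] at e3
    have e4 : (0 : ℝ) < (t.factorial : ℝ) := by exact_mod_cast t.factorial_pos
    have e5 : (Fintype.card {B : Finset (Fin t) // Bt (Nx μ) a (a + L) B} : ℝ) * t.factorial ≤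
        ((1 + d) * t.choose a) * t.factorial := by linarith
    exact le_of_mul_le_mul_right e5 e4
  obtain ⟨S0, -, hS0⟩ := exists_subset_card_eq (s := (univ : Finset (Fin t))) (n := a)
    (by rw [card_univ, Fintype.card_fin]; omega)
  refine ⟨{B : Finset (Fin t) // Bt (Nx μ) a (a + L) B}, inferInstance,
    fun S => if h : Bt (Nx μ) a (a + L) (bot (Nx μ) a S) then ⟨bot (Nx μ) a S, h⟩ else
      ⟨S0, ⟨hS0.ge, by omega, Or.inl hS0⟩⟩,
    fun B π l => path (Nx μ) B.1 π l, ?_, ?_, ?_, hcard, hLow, hHigh⟩
  · intro B π l hl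
    exact G.path_card hbt _ _ hl
  · intro B π l
    exact G.path_mono _ _ _
  · intro S π g1 g2
    have h4 := (G.bot_spec (S.card - a) S (by omega) g2).1
    simp only [dif_pos h4]
    exact G.path_bot g1 g2 π

end Pool.Agent.Lib_helper70.LS
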