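import Pool.Agent.Lib_helper70.LS.Mod

/-!
# Random completions of chains: counting
-/

set_option autoImplicit false

namespace Pool.Agent.Lib_helper70.LS

open Finset

variable {t : ℕ}

open Classical in
/-- The first `k` elements of `A` in the order given by `π`. -/
noncomputable def firstk (π : Equiv.Perm (Fin t)) (k : ℕ) (A : Finset (Fin t)) : Finset (Fin t) :=
  A.filter (fun x => above (A.map π.toEmbedding) (π x) < k)

theorem firstk_subset (π : Equiv.Perm (Fin t)) (k : ℕ) (A : Finset (Fin t)) :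
    firstk π k A ⊆ A := filter_subset _ _

theorem firstk_mono (π : Equiv.Perm (Fin t)) {k k' : ℕ} (h : k ≤ k') (A : Finset (Fin t)) :
    firstk π k A ⊆ firstk π k' A := by
  classical
  intro x hx
  simp only [firstk, mem_filter] at hx ⊢
  exact ⟨hx.1, by omega⟩

theorem firstk_zero (π : Equiv.Perm (Fin t)) (A : Finset (Fin t)) : firstk π 0 A = ∅ := by
  classical
  simp [firstk]

open Classical in
theorem card_above_lt (B : Finset (Fin t)) {k : ℕ} (hk : k ≤ B.card) :
    (B.filter (fun z => above B z < k)).card = k := by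
  have h1 : (B.filter (fun z => above B z < k)).image (above B) = range k := by
    ext n
    simp only [mem_image, mem_filter, mem_range]
    constructor
    · rintro ⟨z, ⟨-, hz⟩, rfl⟩
      exact hz
    · intro hn
      obtain ⟨z, hz, rfl⟩ := above_surj (A := B) (k := n) (by omega)
      exact ⟨z, ⟨hz, hn⟩, rfl⟩
  have h2 : ((B.filter (fun z => above B z < k)).image (above B)).card =
      (B.filter (fun z => above B z < k)).card := by
    apply card_image_of_injOn
    intro x hx y hy h
    simp only [coe_filter, Set.mem_ofPred_eq] at hx hy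
    exact above_inj hx.1 hy.1 h
  rw [← h2, h1, card_range]

theorem firstk_card (π : Equiv.Perm (Fin t)) {k : ℕ} {A : Finset (Fin t)} (hk : k ≤ A.card) :
    (firstk π k A).card = k := by
  classical
  have h1 : (firstk π k A).map π.toEmbedding =
      (A.map π.toEmbedding).filter (fun z => above (A.map π.toEmbedding) z < k) := by
    ext z
    simp only [firstk, mem_map, mem_filter, Equiv.coe_toEmbedding]
    constructor
    · rintro ⟨x, ⟨hx, h2⟩, rfl⟩
      exact ⟨⟨x, hx, rfl⟩, h2⟩
    · rintro ⟨⟨x, hx, rfl⟩, h2⟩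
      exact ⟨x, ⟨hx, h2⟩, rfl⟩
  have h2 := card_above_lt (A.map π.toEmbedding) (k := k) (by rwa [card_map])
  rw [← h1, card_map] at h2
  exact h2

theorem firstk_map (π ρ : Equiv.Perm (Fin t)) (k : ℕ) {A : Finset (Fin t)}
    (hA : A.map ρ.toEmbedding = A) :
    firstk (π * ρ⁻¹) k A = (firstk π k A).map ρ.toEmbedding := by
  classical
  have h1 : A.map (π * ρ⁻¹).toEmbedding = A.map π.toEmbedding := by
    nth_rewrite 1 [← hA]
    rw [map_map]
    ext z
    simp only [mem_map, Function.Embedding.trans_apply, Equiv.coe_toEmbedding,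
      Equiv.Perm.mul_apply]
    constructor
    · rintro ⟨a, ha, h⟩
      exact ⟨a, ha, by simpa using h⟩
    · rintro ⟨a, ha, h⟩
      exact ⟨a, ha, by simpa using h⟩
  ext z
  simp only [firstk, h1, mem_filter, mem_map, Equiv.coe_toEmbedding, Equiv.Perm.mul_apply]
  constructor
  · rintro ⟨hz, h2⟩
    have hz2 := hz
    rw [← hA, mem_map] at hz2
    obtain ⟨x, hx, hxz⟩ := hz2
    simp only [Equiv.coe_toEmbedding] at hxz
    refine ⟨x, ⟨hx, ?_⟩, hxz⟩
    rw [← hxz] at h2
    simpa using h2
  · rintro ⟨x, ⟨hx, h2⟩, rfl⟩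
    refine ⟨?_, by simpa using h2⟩
    rw [← hA, mem_map]
    exact ⟨x, hx, rfl⟩

open Classical in
/-- Number of orders with a given beginning. -/
noncomputable def cnt (k : ℕ) (A X : Finset (Fin t)) : ℕ :=
  (univ.filter (fun π : Equiv.Perm (Fin t) => firstk π k A = X)).card

theorem cnt_map (ρ : Equiv.Perm (Fin t)) (k : ℕ) {A X : Finset (Fin t)}
    (hA : A.map ρ.toEmbedding = A) : cnt k A X = cnt k A (X.map ρ.toEmbedding) := by
  classical
  unfold cnt
  apply card_equiv (Equiv.mulRight ρ⁻¹)
  intro π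
  simp only [mem_filter, mem_univ, true_and, Equiv.coe_mulRight]
  rw [firstk_map π ρ k hA]
  exact (map_injective ρ.toEmbedding).eq_iff.symm

theorem cnt_eq (k : ℕ) (A : Finset (Fin t)) : ∀ (n : ℕ) (X X' : Finset (Fin t)), X ⊆ A → X' ⊆ A →
    X.card = X'.card → (X \ X').card = n → cnt k A X = cnt k A X' := by
  classical
  intro n
  induction n with
  | zero =>
    intro X X' _ _ hc hn
    rw [card_eq_zero, sdiff_eq_empty_iff_subset] at hn
    rw [eq_of_subset_of_card_le hn hc.ge]
  | succ n ih =>
    intro X X' hX hX' hc hn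
    have h1 : (X' \ X).card = n + 1 := by
      have e1 := card_sdiff_add_card_inter X X'
      have e2 := card_sdiff_add_card_inter X' X
      rw [inter_comm] at e2
      omega
    obtain ⟨x, hx⟩ := card_pos.1 (by omega : 0 < (X \ X').card)
    obtain ⟨y, hy⟩ := card_pos.1 (by omega : 0 < (X' \ X).card)
    rw [mem_sdiff] at hx hy
    have hxy : x ≠ y := by
      rintro rfl
      exact hx.2 hy.1
    have hA : A.map (Equiv.swap x y).toEmbedding = A := by
      apply eq_of_subset_of_card_le _ (by rw [card_map])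
      intro z hz
      rw [mem_map] at hz
      obtain ⟨w, hw, rfl⟩ := hz
      simp only [Equiv.coe_toEmbedding]
      by_cases h1 : w = x
      · rw [h1, Equiv.swap_apply_left]
        exact hX' hy.1
      · by_cases h2 : w = y
        · rw [h2, Equiv.swap_apply_right]
          exact hX hx.1
        · rwa [Equiv.swap_apply_of_ne_of_ne h1 h2]
    have hmap : X.map (Equiv.swap x y).toEmbedding = insert y (X.erase x) := by
      apply eq_of_subset_of_card_le
      · intro z hz
        rw [mem_map] at hz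
        obtain ⟨w, hw, rfl⟩ := hz
        simp only [Equiv.coe_toEmbedding, mem_insert, mem_erase]
        by_cases h1 : w = x
        · left
          rw [h1, Equiv.swap_apply_left]
        · right
          have h2 : w ≠ y := by
            rintro rfl
            exact hy.2 hw
          rw [Equiv.swap_apply_of_ne_of_ne h1 h2]
          exact ⟨h1, hw⟩
      · rw [card_map, card_insert_of_notMem (by
          rw [mem_erase]
          exact fun h => hy.2 h.2), card_erase_of_mem hx.1]
        have := card_pos.2 ⟨x, hx.1⟩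
        omega
    rw [cnt_map (Equiv.swap x y) k hA]
    apply ih
    · rw [hmap]
      intro z hz
      rw [mem_insert, mem_erase] at hz
      rcases hz with rfl | hz
      · exact hX' hy.1
      · exact hX hz.2
    · exact hX'
    · rw [card_map, hc]
    · rw [hmap]
      have e : insert y (X.erase x) \ X' = (X \ X').erase x := by
        ext z
        simp only [mem_sdiff, mem_insert, mem_erase]
        constructor
        · rintro ⟨rfl | h1, h2⟩
          · exact absurd hy.1 h2
          · exact ⟨h1.1, h1.2, h2⟩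
        · rintro ⟨h1, h2, h3⟩
          exact ⟨Or.inr ⟨h1, h2⟩, h3⟩
      rw [e, card_erase_of_mem (mem_sdiff.2 hx), hn]
      omega

theorem cnt_mul {k : ℕ} {A X : Finset (Fin t)} (hX : X ⊆ A) (hk : X.card = k) :
    cnt k A X * A.card.choose k = t.factorial := by
  classical
  have hkA : k ≤ A.card := by
    rw [← hk]
    exact card_le_card hX
  have h1 : ∑ X' ∈ A.powersetCard k, cnt k A X' = t.factorial := by
    unfold cnt
    rw [← card_eq_sum_card_fiberwise (f := fun π : Equiv.Perm (Fin t) => firstk π k A)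
      (s := univ) (t := A.powersetCard k)]
    · rw [card_univ, Fintype.card_perm, Fintype.card_fin]
    · intro π _
      rw [mem_coe, mem_powersetCard]
      exact ⟨firstk_subset π k A, firstk_card π hkA⟩
  have h2 : ∀ X' ∈ A.powersetCard k, cnt k A X' = cnt k A X := by
    intro X' hX'
    rw [mem_powersetCard] at hX'
    exact cnt_eq k A _ X' X hX'.1 hX (by rw [hX'.2, hk]) rfl
  rw [sum_congr rfl h2, sum_const, card_powersetCard, smul_eq_mul] at h1
  rw [mul_comm]
  exact h1

theorem cnt_real {k : ℕ} {A X : Finset (Fin t)} (hX : X ⊆ A) (hk : X.card = k) :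
    (cnt k A X : ℝ) = t.factorial * (1 / (A.card.choose k : ℝ)) := by
  have h1 := cnt_mul hX hk
  have h2 : 0 < A.card.choose k := Nat.choose_pos (by rw [← hk]; exact card_le_card hX)
  have h3 : (cnt k A X : ℝ) * (A.card.choose k : ℝ) = (t.factorial : ℝ) := by exact_mod_cast h1
  have h4 : (0 : ℝ) < (A.card.choose k : ℝ) := by exact_mod_cast h2
  rw [← h3]
  field_simp

/-! ## Double counting -/

open Classical in
theorem bad_count (M : Finset (Fin t) → Prop) (S : Finset (Fin t)) (a j β : ℕ) (hS : S.card = a)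
    (haj : a < j) (hβ : ∀ S'' : Finset (Fin t), S ⊆ S'' → S''.card + 1 = j →
      ((S''ᶜ).filter (fun x => M (insert x S''))).card ≤ β) :
    (univ.filter (fun B : Finset (Fin t) => S ⊆ B ∧ B.card = j ∧ M B)).card * (j - a) ≤
      (t - a).choose (j - 1 - a) * β := by
  set 𝓑 := univ.filter (fun B : Finset (Fin t) => S ⊆ B ∧ B.card = j ∧ M B) with h𝓑
  set 𝓢 := univ.filter (fun S'' : Finset (Fin t) => S ⊆ S'' ∧ S''.card + 1 = j) with h𝓢
  have hdc := sum_card_bipartiteAbove_eq_sum_card_bipartiteBelow (s := 𝓢) (t := 𝓑)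
    (fun S'' B : Finset (Fin t) => S'' ⊆ B)
  have h1 : ∀ B ∈ 𝓑, j - a ≤ (bipartiteBelow (fun S'' B : Finset (Fin t) => S'' ⊆ B) 𝓢 B).card := by
    intro B hB
    rw [h𝓑, mem_filter] at hB
    obtain ⟨-, hB1, hB2, -⟩ := hB
    have e : (B \ S).card = j - a := by
      rw [card_sdiff_of_subset hB1, hB2, hS]
    rw [← e]
    apply card_le_card_of_injOn (fun x => B.erase x)
    · intro x hx
      rw [mem_coe, mem_sdiff] at hx
      simp only [bipartiteBelow, coe_filter, Set.mem_ofPred_eq, h𝓢, mem_filter, mem_univ,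
        true_and]
      refine ⟨⟨?_, ?_⟩, erase_subset _ _⟩
      · intro z hz
        rw [mem_erase]
        refine ⟨?_, hB1 hz⟩
        rintro rfl
        exact hx.2 hz
      · rw [card_erase_of_mem hx.1]
        have := card_pos.2 ⟨x, hx.1⟩
        omega
    · intro x hx y hy hxy
      simp only at hxy
      rw [mem_coe, mem_sdiff] at hx hy
      by_contra hne
      have : x ∈ B.erase y := mem_erase.2 ⟨hne, hx.1⟩
      rw [← hxy] at this
      exact notMem_erase x B this
  have h2 : ∀ S'' ∈ 𝓢, (bipartiteAbove (fun S'' B : Finset (Fin t) => S'' ⊆ B) 𝓑 S'').card ≤ β := by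
    intro S'' hS''
    rw [h𝓢, mem_filter] at hS''
    refine le_trans ?_ (hβ S'' hS''.2.1 hS''.2.2)
    apply card_le_card_of_surjOn (fun x => insert x S'')
    intro B hB
    simp only [bipartiteAbove, coe_filter, Set.mem_ofPred_eq, h𝓑, mem_filter, mem_univ,
      true_and] at hB
    obtain ⟨⟨hB1, hB2, hB3⟩, hB4⟩ := hB
    have h3 : (B \ S'').card = 1 := by
      rw [card_sdiff_of_subset hB4]
      omega
    obtain ⟨x, hx⟩ := card_eq_one.1 h3
    have hx' : x ∈ B \ S'' := by rw [hx]; exact mem_singleton_self x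
    rw [mem_sdiff] at hx'
    have h4 : insert x S'' = B := by
      rw [insert_eq, ← hx, sdiff_union_of_subset hB4]
    refine ⟨x, ?_, h4⟩
    simp only [coe_filter, mem_compl, Set.mem_ofPred_eq]
    refine ⟨hx'.2, ?_⟩
    rw [h4]
    exact hB3
  have h3 : 𝓑.card * (j - a) ≤
      ∑ B ∈ 𝓑, (bipartiteBelow (fun S'' B : Finset (Fin t) => S'' ⊆ B) 𝓢 B).card := by
    rw [← smul_eq_mul]
    exact card_nsmul_le_sum _ _ _ h1
  have h4 : ∑ S'' ∈ 𝓢, (bipartiteAbove (fun S'' B : Finset (Fin t) => S'' ⊆ B) 𝓑 S'').card ≤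
      𝓢.card * β := by
    rw [← smul_eq_mul]
    exact sum_le_card_nsmul _ _ _ h2
  have h5 : 𝓢.card ≤ (t - a).choose (j - 1 - a) := by
    have e : (t - a).choose (j - 1 - a) = ((Sᶜ).powersetCard (j - 1 - a)).card := by
      rw [card_powersetCard, card_compl, Fintype.card_fin, hS]
    rw [e]
    apply card_le_card_of_injOn (fun S'' => S'' \ S)
    · intro S'' hS''
      rw [mem_coe, h𝓢, mem_filter] at hS''
      rw [mem_coe, mem_powersetCard]
      refine ⟨?_, ?_⟩
      · intro z hz
        rw [mem_sdiff] at hz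
        rw [mem_compl]
        exact hz.2
      · rw [card_sdiff_of_subset hS''.2.1, hS]
        omega
    · intro X hX Y hY hXY
      rw [mem_coe, h𝓢, mem_filter] at hX hY
      simp only at hXY
      rw [← sdiff_union_of_subset hX.2.1, ← sdiff_union_of_subset hY.2.1, hXY]
  calc 𝓑.card * (j - a) ≤ _ := h3
    _ = _ := hdc.symm
    _ ≤ 𝓢.card * β := h4
    _ ≤ _ := Nat.mul_le_mul_right _ h5

/-- The ratio of binomial coefficients. -/
theorem choose_ratio (t a : ℕ) (ρ : ℝ) (hρ1 : 1 ≤ ρ) (hρ : (t : ℝ) - a ≤ ρ * a) (hat : a ≤ t) (i : ℕ) :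
    ((t - a).choose i : ℝ) ≤ ρ ^ i * ((a + i).choose i : ℝ) := by
  induction i with
  | zero => simp
  | succ i ih =>
    have h1 : ((t - a).choose (i + 1) : ℝ) * ((i : ℝ) + 1) =
        ((t - a).choose i : ℝ) * ((t : ℝ) - a - i) ∨ t - a < i + 1 := by
      by_cases h : i + 1 ≤ t - a
      · left
        have := Nat.choose_succ_right_eq (t - a) i
        have h2 : ((t - a - i : ℕ) : ℝ) = (t : ℝ) - a - i := by
          rw [Nat.cast_sub (by omega), Nat.cast_sub hat]
        rw [← h2]
        exact_mod_cast this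
      · right
        omega
    rcases h1 with h1 | h1
    · have h2 : ((a + (i + 1)).choose (i + 1) : ℝ) * ((i : ℝ) + 1) =
          ((a : ℝ) + i + 1) * ((a + i).choose i : ℝ) := by
        have := Nat.add_one_mul_choose_eq (a + i) i
        have h3 : a + (i + 1) = a + i + 1 := by omega
        rw [h3]
        have h4 : (((a + i + 1) * (a + i).choose i : ℕ) : ℝ) =
            (((a + i + 1).choose (i + 1) * (i + 1) : ℕ) : ℝ) := by rw [this]
        push_cast at h4
        linarith
      have hi : (0 : ℝ) < (i : ℝ) + 1 := by positivity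
      have hc0 : (0 : ℝ) ≤ ((a + i).choose i : ℝ) := by positivity
      have hc1 : (0 : ℝ) ≤ ((t - a).choose i : ℝ) := by positivity
      have ha0 : (0 : ℝ) ≤ (a : ℝ) := by positivity
      have hi0 : (0 : ℝ) ≤ (i : ℝ) := by positivity
      have hρi : (0 : ℝ) < ρ ^ i := by positivity
      rw [← mul_le_mul_iff_left₀ hi, h1, mul_assoc, h2]
      have h5 : (t : ℝ) - a - i ≤ ρ * ((a : ℝ) + i + 1) := by nlinarith
      calc ((t - a).choose i : ℝ) * ((t : ℝ) - a - i)
          ≤ ((t - a).choose i : ℝ) * (ρ * ((a : ℝ) + i + 1)) :=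
            mul_le_mul_of_nonneg_left h5 hc1
        _ ≤ (ρ ^ i * ((a + i).choose i : ℝ)) * (ρ * ((a : ℝ) + i + 1)) :=
            mul_le_mul_of_nonneg_right ih (by positivity)
        _ = ρ ^ (i + 1) * (((a : ℝ) + i + 1) * ((a + i).choose i : ℝ)) := by ring
    · rw [Nat.choose_eq_zero_of_lt h1]
      have : (0 : ℝ) < ρ := by linarith
      simp only [Nat.cast_zero]
      positivity

open Classical in
/-- The density of the completions of the bad sets. -/
theorem density_bound (M : Finset (Fin t) → Prop) (S : Finset (Fin t)) (a L β : ℕ) (ha : 0 < a)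
    (haL : a + L ≤ t) (hS : S.card = a) (hβ : ∀ S'' : Finset (Fin t), S ⊆ S'' → a ≤ S''.card →
      S''.card < a + L → ((S''ᶜ).filter (fun x => M (insert x S''))).card ≤ β)
    (ρ : ℝ) (hρ1 : 1 ≤ ρ) (hρ : (t : ℝ) - a ≤ ρ * a) :
    ∑ B ∈ univ.filter (fun B : Finset (Fin t) => S ⊆ B ∧ a < B.card ∧ B.card ≤ a + L ∧ M B),
      (1 / (B.card.choose a : ℝ)) ≤ L * (β / a * ρ ^ L) := by
  have hdec : ∑ B ∈ univ.filter (fun B : Finset (Fin t) => S ⊆ B ∧ a < B.card ∧ B.card ≤ a + L ∧
      M B), (1 / (B.card.choose a : ℝ)) = ∑ i ∈ range L,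
        ∑ B ∈ univ.filter (fun B : Finset (Fin t) => S ⊆ B ∧ B.card = a + i + 1 ∧ M B),
          (1 / (B.card.choose a : ℝ)) := by
    rw [← sum_fiberwise_of_maps_to (s := univ.filter (fun B : Finset (Fin t) => S ⊆ B ∧
      a < B.card ∧ B.card ≤ a + L ∧ M B)) (t := range L) (g := fun B => B.card - a - 1)]
    · apply sum_congr rfl
      intro i hi
      rw [mem_range] at hi
      apply sum_congr _ fun _ _ => rfl
      ext B
      simp only [mem_filter, mem_univ, true_and]
      constructor
      · rintro ⟨⟨h1, h2, h3, h4⟩, h5⟩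
        exact ⟨h1, by omega, h4⟩
      · rintro ⟨h1, h2, h3⟩
        exact ⟨⟨h1, by omega, by omega, h3⟩, by omega⟩
    · intro B hB
      rw [mem_filter] at hB
      rw [mem_range]
      omega
  rw [hdec]
  have hterm : ∀ i ∈ range L,
      ∑ B ∈ univ.filter (fun B : Finset (Fin t) => S ⊆ B ∧ B.card = a + i + 1 ∧ M B),
          (1 / (B.card.choose a : ℝ)) ≤ β / a * ρ ^ L := by
    intro i hi
    rw [mem_range] at hi
    have e1 : ∑ B ∈ univ.filter (fun B : Finset (Fin t) => S ⊆ B ∧ B.card = a + i + 1 ∧ M B),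
          (1 / (B.card.choose a : ℝ)) =
        ((univ.filter (fun B : Finset (Fin t) => S ⊆ B ∧ B.card = a + i + 1 ∧ M B)).card : ℝ) *
          (1 / ((a + i + 1).choose a : ℝ)) := by
      rw [← nsmul_eq_mul, ← sum_const]
      apply sum_congr rfl
      intro B hB
      rw [mem_filter] at hB
      rw [hB.2.2.1]
    rw [e1]
    have h1 := bad_count M S a (a + i + 1) β hS (by omega) (fun S'' h1 h2 =>
      hβ S'' h1 (by rw [← hS]; exact card_le_card h1) (by omega))
    have e2 : a + i + 1 - a = i + 1 := by omega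
    have e3 : a + i + 1 - 1 - a = i := by omega
    rw [e2, e3] at h1
    set N := (univ.filter (fun B : Finset (Fin t) => S ⊆ B ∧ B.card = a + i + 1 ∧ M B)).card
      with hN
    have h1' : (N : ℝ) * ((i : ℝ) + 1) ≤ ((t - a).choose i : ℝ) * β := by exact_mod_cast h1
    have h2 := choose_ratio t a ρ hρ1 hρ (by omega) i
    have h3 : ((a + i + 1).choose a : ℝ) * ((i : ℝ) + 1) =
        ((a : ℝ) + i + 1) * ((a + i).choose i : ℝ) := by
      have h4 := Nat.add_one_mul_choose_eq (a + i) i
      have h5 : (a + i + 1).choose a = (a + i + 1).choose (i + 1) := by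
        rw [← Nat.choose_symm_of_eq_add (show a + i + 1 = a + (i + 1) by omega)]
      rw [h5]
      have h6 : (((a + i + 1) * (a + i).choose i : ℕ) : ℝ) =
          (((a + i + 1).choose (i + 1) * (i + 1) : ℕ) : ℝ) := by rw [h4]
      push_cast at h6
      linarith
    have hcpos : (0 : ℝ) < ((a + i).choose i : ℝ) := by
      exact_mod_cast Nat.choose_pos (by omega)
    have hcpos2 : (0 : ℝ) < ((a + i + 1).choose a : ℝ) := by
      exact_mod_cast Nat.choose_pos (by omega)
    have hi0 : (0 : ℝ) < (i : ℝ) + 1 := by positivity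
    have ha0 : (0 : ℝ) < (a : ℝ) := by exact_mod_cast ha
    have hβ0 : (0 : ℝ) ≤ (β : ℝ) := by positivity
    have hρi : ρ ^ i ≤ ρ ^ L := pow_le_pow_right₀ hρ1 hi.le
    have hρi0 : 0 < ρ ^ i := by positivity
    rw [mul_one_div, div_le_iff₀ hcpos2, ← mul_le_mul_iff_left₀ hi0]
    calc (N : ℝ) * ((i : ℝ) + 1) ≤ ((t - a).choose i : ℝ) * β := h1'
      _ ≤ (ρ ^ i * ((a + i).choose i : ℝ)) * β := mul_le_mul_of_nonneg_right h2 hβ0
      _ ≤ (ρ ^ L * ((a + i).choose i : ℝ)) * β := by
          apply mul_le_mul_of_nonneg_right _ hβ0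
          exact mul_le_mul_of_nonneg_right hρi hcpos.le
      _ = β / a * ρ ^ L * ((a : ℝ) * ((a + i).choose i : ℝ)) := by
          field_simp
      _ ≤ β / a * ρ ^ L * (((a : ℝ) + i + 1) * ((a + i).choose i : ℝ)) := by
          apply mul_le_mul_of_nonneg_left _ (by positivity)
          apply mul_le_mul_of_nonneg_right _ hcpos.le
          have : (0 : ℝ) ≤ (i : ℝ) := by positivity
          linarith
      _ = β / a * ρ ^ L * ((a + i + 1).choose a : ℝ) * ((i : ℝ) + 1) := by
          rw [mul_assoc _ ((a + i + 1).choose a : ℝ), h3]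
  refine (sum_le_sum hterm).trans ?_
  rw [sum_const, card_range, nsmul_eq_mul]

end Pool.Agent.Lib_helper70.LS
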