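import Mathlib

/-!
# The modular matching between consecutive levels of `2^[t]`
-/

set_option autoImplicit false

namespace Pool.Agent.Lib_helper70.LS

open Finset

variable {t : ℕ}

open Classical in
/-- Number of elements of `A` above `x`. -/
noncomputable def above (A : Finset (Fin t)) (x : Fin t) : ℕ := (A.filter (fun y => x < y)).card

/-- Sum of the elements. -/
def tot (S : Finset (Fin t)) : ℕ := ∑ x ∈ S, (x : ℕ)

theorem above_add_compl (S : Finset (Fin t)) (x : Fin t) :
    above Sᶜ x + above S x = t - 1 - x := by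
  classical
  have h1 : (univ.filter (fun y : Fin t => x < y)).card = t - 1 - x := by
    rw [← Fin.card_Ioi]
    congr 1
    ext y
    simp
  rw [← h1, above, above, add_comm, ← card_union_of_disjoint]
  · congr 1
    ext y
    simp only [mem_union, mem_filter, mem_compl, mem_univ, true_and]
    tauto
  · rw [Finset.disjoint_left]
    intro y hy hy2
    simp only [mem_filter, mem_compl] at hy hy2
    exact hy2.1 hy.1

theorem above_lt_above {A : Finset (Fin t)} {x y : Fin t} (hy : y ∈ A) (hxy : x < y) :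
    above A y < above A x := by
  classical
  apply card_lt_card
  rw [Finset.ssubset_iff_of_subset]
  · exact ⟨y, by simp [hy, hxy], by simp⟩
  · intro z hz
    simp only [mem_filter] at hz ⊢
    exact ⟨hz.1, hxy.trans hz.2⟩

theorem above_inj {A : Finset (Fin t)} {x y : Fin t} (hx : x ∈ A) (hy : y ∈ A)
    (h : above A x = above A y) : x = y := by
  rcases lt_trichotomy x y with h1 | h1 | h1
  · have := above_lt_above hy h1
    omega
  · exact h1
  · have := above_lt_above hx h1
    omega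

theorem above_lt_card {A : Finset (Fin t)} {x : Fin t} (hx : x ∈ A) : above A x < A.card := by
  classical
  apply card_lt_card
  rw [Finset.ssubset_iff_of_subset (filter_subset _ _)]
  exact ⟨x, hx, by simp⟩

theorem above_surj {A : Finset (Fin t)} {k : ℕ} (hk : k < A.card) : ∃ x ∈ A, above A x = k := by
  classical
  have h1 : A.image (above A) = range A.card := by
    apply eq_of_subset_of_card_le
    · intro y hy
      rw [mem_image] at hy
      obtain ⟨x, hx, rfl⟩ := hy
      rw [mem_range]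
      exact above_lt_card hx
    · rw [card_range, card_image_of_injOn]
      intro x hx y hy h
      exact above_inj hx hy h
  have h2 : k ∈ A.image (above A) := by
    rw [h1, mem_range]
    exact hk
  rw [mem_image] at h2
  exact h2

theorem above_insert {S : Finset (Fin t)} {x : Fin t} : above (insert x S) x = above S x := by
  classical
  unfold above
  congr 1
  ext y
  simp only [mem_filter, mem_insert]
  constructor
  · rintro ⟨h1 | h1, h2⟩
    · subst h1
      exact absurd h2 (lt_irrefl _)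
    · exact ⟨h1, h2⟩
  · rintro ⟨h1, h2⟩
    exact ⟨Or.inr h1, h2⟩

/-- The matching: `S'` is the successor of `S`. -/
def Nx (μ : ℕ) (S S' : Finset (Fin t)) : Prop :=
  ∃ x, x ∉ S ∧ S' = insert x S ∧ (μ : ℤ) ∣ (above Sᶜ x : ℤ) - tot S

theorem Nx.iff_pred (μ : ℕ) {S : Finset (Fin t)} {x : Fin t} (hx : x ∉ S) :
    ((μ : ℤ) ∣ (above Sᶜ x : ℤ) - tot S) ↔
      (μ : ℤ) ∣ (above (insert x S) x : ℤ) - (((t : ℤ) - 1) - tot (insert x S)) := by
  have h1 := above_add_compl S x
  have h2 : tot (insert x S) = x + tot S := by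
    unfold tot
    rw [sum_insert hx]
  have h3 := x.2
  rw [above_insert, h2]
  have h4 : (above Sᶜ x : ℤ) + above S x = (t : ℤ) - 1 - x := by
    have : ((above Sᶜ x + above S x : ℕ) : ℤ) = ((t - 1 - x : ℕ) : ℤ) := by rw [h1]
    push_cast at this
    rw [this]
    omega
  have h5 : (above S x : ℤ) - (((t : ℤ) - 1) - ((x + tot S : ℕ) : ℤ)) =
      -((above Sᶜ x : ℤ) - tot S) := by
    push_cast
    linarith
  rw [h5]
  exact (dvd_neg).symm

theorem int_dvd_sub_lt {μ : ℕ} {p q : ℕ} (hp : p < μ) (hq : q < μ) {c : ℤ}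
    (h1 : (μ : ℤ) ∣ (p : ℤ) - c) (h2 : (μ : ℤ) ∣ (q : ℤ) - c) : p = q := by
  have h3 : (μ : ℤ) ∣ (p : ℤ) - q := by
    have := dvd_sub h1 h2
    simpa using this
  have h4 : ((p : ℤ) - q) = 0 := by
    apply Int.eq_zero_of_abs_lt_dvd h3
    rw [abs_lt]
    constructor <;> omega
  omega

theorem Nx.unique {μ : ℕ} {S S1 S2 : Finset (Fin t)} (hS : Sᶜ.card ≤ μ) (h1 : Nx μ S S1)
    (h2 : Nx μ S S2) : S1 = S2 := by
  obtain ⟨x, hx, rfl, hx2⟩ := h1
  obtain ⟨y, hy, rfl, hy2⟩ := h2
  have hx' : x ∈ Sᶜ := by simpa using hx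
  have hy' : y ∈ Sᶜ := by simpa using hy
  have e := int_dvd_sub_lt ((above_lt_card hx').trans_le hS) ((above_lt_card hy').trans_le hS)
    hx2 hy2
  rw [above_inj hx' hy' e]

theorem Nx.unique' {μ : ℕ} {S1 S2 S' : Finset (Fin t)} (hS : S'.card ≤ μ) (h1 : Nx μ S1 S')
    (h2 : Nx μ S2 S') : S1 = S2 := by
  obtain ⟨x, hx, hx1, hx2⟩ := h1
  obtain ⟨y, hy, hy1, hy2⟩ := h2
  rw [Nx.iff_pred μ hx, ← hx1] at hx2
  rw [Nx.iff_pred μ hy, ← hy1] at hy2
  have hx' : x ∈ S' := by rw [hx1]; exact mem_insert_self _ _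
  have hy' : y ∈ S' := by rw [hy1]; exact mem_insert_self _ _
  have e := int_dvd_sub_lt ((above_lt_card hx').trans_le hS) ((above_lt_card hy').trans_le hS)
    hx2 hy2
  have e2 := above_inj hx' hy' e
  subst e2
  have e3 : S'.erase x = S1 := by rw [hx1]; exact erase_insert hx
  have e4 : S'.erase x = S2 := by rw [hy1]; exact erase_insert hy
  rw [← e3, e4]

/-- If a residue is small, there is a predecessor. -/
theorem Nx.exists_pred {μ : ℕ} (hμ : 0 < μ) {S' : Finset (Fin t)}
    (h : (((t : ℤ) - 1) - tot S') % μ < S'.card) : ∃ S, Nx μ S S' := by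
  have h0 : 0 ≤ (((t : ℤ) - 1) - tot S') % μ := Int.emod_nonneg _ (by omega)
  obtain ⟨k, hk⟩ := Int.eq_ofNat_of_zero_le h0
  rw [hk] at h
  obtain ⟨x, hx, hx2⟩ := above_surj (A := S') (k := k) (by exact_mod_cast h)
  refine ⟨S'.erase x, x, notMem_erase x S', (insert_erase hx).symm, ?_⟩
  rw [Nx.iff_pred μ (notMem_erase x S'), insert_erase hx, hx2, ← hk]
  have := Int.emod_add_mul_ediv (((t : ℤ) - 1) - tot S') μ
  refine ⟨-((((t : ℤ) - 1) - tot S') / μ), ?_⟩
  linarith

/-- If a residue is small, there is a successor. -/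
theorem Nx.exists_succ {μ : ℕ} (hμ : 0 < μ) {S : Finset (Fin t)}
    (h : (tot S : ℤ) % μ < (Sᶜ.card : ℕ)) : ∃ S', Nx μ S S' := by
  have h0 : 0 ≤ (tot S : ℤ) % μ := Int.emod_nonneg _ (by omega)
  obtain ⟨k, hk⟩ := Int.eq_ofNat_of_zero_le h0
  rw [hk] at h
  obtain ⟨x, hx, hx2⟩ := above_surj (A := Sᶜ) (k := k) (by exact_mod_cast h)
  refine ⟨insert x S, x, by simpa using hx, rfl, ?_⟩
  rw [hx2, ← hk]
  have := Int.emod_add_mul_ediv (tot S : ℤ) μ
  refine ⟨-((tot S : ℤ) / μ), ?_⟩
  linarith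

/-- The number of `x < t` with `(c - x) mod μ` in `[j, μ)` is at most `2 (μ - j)` if `t ≤ 2 μ`. -/
theorem count_residue (μ : ℕ) (hμ : 0 < μ) (ht : t ≤ 2 * μ) (c : ℤ) (j : ℕ) (hj : j ≤ μ) :
    (univ.filter (fun x : Fin t => (j : ℤ) ≤ (c - x) % μ)).card ≤ 2 * (μ - j) := by
  classical
  -- map x to (x / μ, (c - x) mod μ)
  have hinj : (univ.filter (fun x : Fin t => (j : ℤ) ≤ (c - x) % μ)).card ≤
      ((range 2) ×ˢ (Finset.Ico (j : ℤ) μ)).card := by
    apply card_le_card_of_injOn (fun x : Fin t => ((x : ℕ) / μ, (c - x) % μ))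
    · intro x hx
      simp only [coe_filter, mem_univ, true_and, Set.mem_ofPred_eq] at hx
      simp only [coe_product, Set.mem_prod, mem_coe, mem_range, mem_Ico]
      refine ⟨?_, hx, Int.emod_lt_of_pos _ (by omega)⟩
      rw [Nat.div_lt_iff_lt_mul hμ]
      have := x.2
      omega
    · intro x hx y hy h
      simp only [Prod.mk.injEq] at h
      obtain ⟨h1, h2⟩ := h
      have h3 : (μ : ℤ) ∣ (c - x) - (c - y) :=
        Int.ModEq.dvd (show (c - y) ≡ (c - x) [ZMOD μ] from h2.symm)
      have h4 : (μ : ℤ) ∣ (y : ℤ) - x := by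
        have e : (c - x) - (c - y) = (y : ℤ) - x := by ring
        rwa [e] at h3
      have h5 := Nat.div_add_mod (x : ℕ) μ
      have h6 := Nat.div_add_mod (y : ℕ) μ
      have h7 := Nat.mod_lt (x : ℕ) hμ
      have h8 := Nat.mod_lt (y : ℕ) hμ
      have h9 : ((y : ℤ) - x) = 0 := by
        apply Int.eq_zero_of_abs_lt_dvd h4
        rw [h1] at h5
        rw [abs_lt]
        constructor <;> omega
      apply Fin.ext
      omega
  refine hinj.trans ?_
  rw [card_product, card_range, Int.card_Ico]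
  apply Nat.mul_le_mul_left
  omega

open Classical in
/-- Few extensions of `S` have no predecessor. -/
theorem count_bad (μ : ℕ) (hμ : 0 < μ) (ht : t ≤ 2 * μ) (S : Finset (Fin t)) (hS : S.card + 1 ≤ μ) :
    ((Sᶜ).filter (fun x => ¬ ∃ S0, Nx μ S0 (insert x S))).card ≤ 2 * (μ - (S.card + 1)) := by
  classical
  refine le_trans (card_le_card ?_) (count_residue (t := t) μ hμ ht (((t : ℤ) - 1) - tot S)
    (S.card + 1) hS)
  intro x hx
  rw [mem_filter] at hx
  rw [mem_filter]
  refine ⟨mem_univ _, ?_⟩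
  by_contra h
  push Not at h
  apply hx.2
  have hxS : x ∉ S := by simpa using hx.1
  apply Nx.exists_pred hμ
  have h2 : tot (insert x S) = x + tot S := by
    unfold tot
    rw [sum_insert hxS]
  rw [h2, card_insert_of_notMem hxS]
  have e : ((t : ℤ) - 1) - ((x + tot S : ℕ) : ℤ) = (((t : ℤ) - 1) - tot S) - x := by
    push_cast
    ring
  rw [e]
  exact h

open Classical in
/-- Few sets `S' - x` have no successor. -/
theorem count_bad' (μ : ℕ) (hμ : 0 < μ) (ht : t ≤ 2 * μ) (S' : Finset (Fin t)) (hS : S'.card ≤ t)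
    (hS2 : t - S'.card + 1 ≤ μ) :
    (S'.filter (fun x => ¬ ∃ S1, Nx μ (S'.erase x) S1)).card ≤ 2 * (μ - (t - S'.card + 1)) := by
  classical
  refine le_trans (card_le_card ?_) (count_residue (t := t) μ hμ ht (tot S' : ℤ)
    (t - S'.card + 1) hS2)
  intro x hx
  rw [mem_filter] at hx
  rw [mem_filter]
  refine ⟨mem_univ _, ?_⟩
  by_contra h
  push Not at h
  apply hx.2
  apply Nx.exists_succ hμ
  have h2 : tot S' = x + tot (S'.erase x) := by
    unfold tot
    rw [add_sum_erase _ _ hx.1]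
  have h3 : ((S'.erase x)ᶜ).card = t - S'.card + 1 := by
    rw [card_compl, card_erase_of_mem hx.1, Fintype.card_fin]
    have := card_pos.2 ⟨x, hx.1⟩
    omega
  rw [h3]
  have e : (tot S' : ℤ) - x = (tot (S'.erase x) : ℤ) := by
    rw [h2]
    push_cast
    ring
  rw [← e]
  exact h

end Pool.Agent.Lib_helper70.LS
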